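import Pool.Agent.W297.LP.Defs

/-!
Project LP (helper297), problem MP_6505eb_co, frozen statement S09215: the statements of the parts.
-/

set_option autoImplicit false

open Finset

namespace Pool.Agent.W297.LP

/-- MOON -/
def SMoon : Prop :=
  ∀ (V : Type) [Fintype V] (W : V → V → ℝ), Ker W → ∀ (D : Finset V) (s : ℕ),
    ((s : ℝ) + 1) * ((cl W D (s + 1)).card : ℝ) ^ 2 ≤
      ((cl W D s).card : ℝ) *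
        ((D.card : ℝ) * ((cl W D (s + 1)).card : ℝ) + (s : ℝ) * ((cl W D (s + 2)).card : ℝ))

/-- DENS: from MOON -/
def SDens : Prop :=
  ∀ (V : Type) [Fintype V] (W : V → V → ℝ), Ker W → ∀ (D : Finset V) (r : ℝ), 0 < r →
    (1 - 1 / r) * (D.card : ℝ) ^ 2 ≤ ∑ x ∈ D, ∑ y ∈ D, W x y → ∀ s : ℕ, (s : ℝ) - 1 ≤ r →
    (∏ i ∈ range s, (1 - (i : ℝ) / r)) * (D.card : ℝ) ^ s ≤ ((cl W D s).card : ℝ)

/-- TUR: from DENS -/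
def STur : Prop :=
  ∀ k : ℕ, 4 ≤ k → ∀ h : ℝ, 0 < h → ∃ c : ℝ, 0 < c ∧
    ∀ (V : Type) [Fintype V] (W : V → V → ℝ), Ker W → ∀ D : Finset V,
      ((cl W D k).card : ℝ) ≤ c * (Fintype.card V : ℝ) ^ k →
      ee W D D ≤ (1 - mu k) * (ms D) ^ 2 + h

/-- MANY: from DENS -/
def SManyK : Prop :=
  ∀ k : ℕ, 4 ≤ k → ∃ c h : ℝ, 0 < c ∧ 0 < h ∧
    ∀ (V : Type) [Fintype V] (W : V → V → ℝ), Ker W → ∀ D : Finset V,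
      1 - mu k - h ≤ ee W D D →
      c * (Fintype.card V : ℝ) ^ (k - 1) ≤ ((cl W D (k - 1)).card : ℝ)

/-- RAM -/
def SRam : Prop :=
  ∀ k : ℕ, ∃ c : ℝ, 0 < c ∧ ∀ (V : Type) [Fintype V] (W : V → V → ℝ), Ker W → ∀ D : Finset V,
    c * (D.card : ℝ) ^ k ≤ ((cl W D k).card : ℝ) + ((cl (co W) D k).card : ℝ)

/-- ELIM -/
def SElim : Prop :=
  ∀ (V : Type) [Fintype V] [DecidableEq V] (W : V → V → ℝ), Ker W → ∀ τ : ℝ, 0 ≤ τ →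
    ∀ m0 : ℕ, m0 ≤ Fintype.card V → ∃ S : Finset V, m0 ≤ S.card ∧
      (S.card = m0 ∨ ∀ x ∈ S, τ * (Fintype.card V : ℝ) ≤ ∑ y ∈ S, W x y) ∧
      (∀ v, v ∉ S → ∑ y ∈ S, W v y ≤ τ * (Fintype.card V : ℝ)) ∧
      ee W univ univ ≤ ee W S S + 2 * τ * (1 - ms S)

/-- AMGM -/
def SAMGM : Prop :=
  ∀ k : ℕ, 1 ≤ k → ∀ (V : Type) [Fintype V] (W : V → V → ℝ), Ker W → ∀ (T : Fin k → Tr)
    (D : Finset V) (A : ℝ), 0 ≤ A → (∀ x ∈ D, A ≤ ∏ i, td W (T i) x) →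
    ((cl W D k).card : ℝ) * A ≤ (Fintype.card V : ℝ) ^ k * lol W T

/-- GLUE -/
def SGlue : Prop :=
  ∀ (k : ℕ) (T : Fin k → Tr), ∃ T0 : Tr, T0.sz = tot T ∧
    ∀ (V : Type) [Fintype V] (W : V → V → ℝ) (x : V), td W T0 x = ∏ i, td W (T i) x

/-- CORE -/
def SCore : Prop :=
  ∀ (V : Type) [Fintype V] (W : V → V → ℝ), Ker W → ∀ (S : Finset V) (τ : ℝ), 0 ≤ τ →
    (∀ x ∈ S, τ * (Fintype.card V : ℝ) ≤ ∑ y ∈ S, W x y) →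
    ∀ (T : Tr) (x : V), τ * (Fintype.card V : ℝ) ≤ ∑ y ∈ S, W x y → τ ^ T.sz ≤ td W T x

/-- WALK -/
def SWalk : Prop :=
  ∀ (V : Type) [Fintype V] (W : V → V → ℝ), Ker W → ∀ m : ℝ, 0 < m → ∀ (T : Tr) (x : V),
    0 < dg W x → 0 < td W T x ∧ gt W m T x ≤ Real.log (td W T x) - (T.sz : ℝ) * Real.log m

/-- CERT -/
def SCert : Prop :=
  (∀ (m l1 l2 : ℝ) (Ph : ℝ → ℝ), 0 < m → Cert2 m l1 l2 Ph →
    ∀ (V : Type) [Fintype V] (W : V → V → ℝ), Ker W → ∀ m1 m2 : V → ℝ,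
      (∀ x, 0 ≤ m1 x) → (∀ x, m1 x ≤ dg W x) → (∀ x, 0 ≤ m2 x) → (∀ x, m2 x ≤ dg (co W) x) →
      ∀ T : Tr, (T.sz : ℝ) * (l1 * ∑ x, m1 x + l2 * ∑ x, m2 x + ∑ x, Ph (dg W x)) ≤
        ∑ x, m1 x * gt W m T x + ∑ x, m2 x * gt (co W) m T x) ∧
  (∀ (m l : ℝ) (Ph : ℝ → ℝ), 0 < m → Cert1 m l Ph →
    ∀ (V : Type) [Fintype V] (W : V → V → ℝ), Ker W → ∀ m1 : V → ℝ,
      (∀ x, 0 ≤ m1 x) → (∀ x, m1 x ≤ dg W x) →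
      ∀ T : Tr, (T.sz : ℝ) * (l * ∑ x, m1 x + ∑ x, Ph (dg W x)) ≤ ∑ x, m1 x * gt W m T x)

/-- NUM -/
def SNum : Prop :=
  (∀ m : ℝ, 0 < m → m ≤ 1 / 4 → Cert2 m 1 (4 / 5) (fun _ => -m) ∧ Cert2 m (4 / 5) 1 (fun _ => -m)) ∧
  Cert2 (1 / 3) (3 / 5) (3 / 5) (fun _ => -(2235 / 10000)) ∧
  Cert2 (1 / 3) 1 (3 / 8) (fun _ => -(1 / 3)) ∧
  (∀ m : ℝ, 0 < m → m ≤ 1 → Cert1 m 1 (fun _ => -m)) ∧
  (∀ m : ℝ, 0 < m → m ≤ 1 →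
    Cert1 m (Real.log (1 / m)) (fun d => (d - m) + (d - m) ^ 2 / 2 - Real.log (1 / m) * d))

/-- SETS: from AMGM, GLUE, CORE, WALK, CERT, RAM -/
def SSets : Prop :=
  ∀ k : ℕ, 4 ≤ k → ∀ e : ℝ, 0 < e → ∃ N0 : ℕ,
    ∀ (V : Type) [Fintype V] [DecidableEq V] (W : V → V → ℝ), Ker W → ∀ T : Fin k → Tr,
      N0 ≤ tot T → lol W T < mu k ^ (tot T + (k - 1)) →
      lol (co W) T < mu k ^ (tot T + (k - 1)) → ∃ D1 D2 : Finset V, Ext k e W D1 D2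

/-- SYM -/
def SSym : Prop :=
  (∀ (k : ℕ) (e : ℝ) (V : Type) [Fintype V] [DecidableEq V] (W : V → V → ℝ) (D1 D2 : Finset V),
    Ker W → Ext k e W D1 D2 → Ext k e (co W) D2 D1) ∧
  (∀ (k : ℕ) (e e' : ℝ) (V : Type) [Fintype V] [DecidableEq V] (W : V → V → ℝ) (D1 D2 : Finset V),
    4 ≤ k → e ≤ e' → Ext k e W D1 D2 → Ext k e' W D1 D2)

/-- the numerical facts used in the case analysis -/
structure Facts (k : ℕ) (h b r o M1 M2 E F rho : ℝ) : Prop where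
  b0 : 0 ≤ b
  r0 : 0 ≤ r
  o0 : 0 ≤ o
  le1 : b + r + o ≤ 1
  ge1 : 1 - h ≤ b + r + o
  E0 : 0 ≤ E
  F0 : 0 ≤ F
  M10 : 0 ≤ M1
  M20 : 0 ≤ M2
  tot : o + mu k * (b ^ 2 + r ^ 2) + b * r - h ≤ M1 + M2
  EF : E + F = b * (r + o)
  m1 : mu k * b ^ 2 + F - h ≤ M1
  m2 : E ≤ M2
  rho : rho ≤ M1 + F + (r + o) ^ 2 + h

/-- FACTS: from TUR -/
def SFacts : Prop :=
  ∀ k : ℕ, 4 ≤ k → ∀ h : ℝ, 0 < h → ∃ e : ℝ, 0 < e ∧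
    ∀ (V : Type) [Fintype V] [DecidableEq V] (W : V → V → ℝ) (D1 D2 : Finset V), Ker W →
      0 < Fintype.card V → Ext k e W D1 D2 →
      Facts k h (ms (D2 \ D1)) (ms (D1 \ D2)) (ms (D1 ∪ D2)ᶜ)
        ((∑ x ∈ D1ᶜ, dg W x) / (Fintype.card V : ℝ))
        ((∑ x ∈ D2ᶜ, dg (co W) x) / (Fintype.card V : ℝ))
        (ee (co W) (D2 \ D1) D2ᶜ) (ee W (D2 \ D1) D2ᶜ) (ee W univ univ)

/-- DICH5: from FACTS, NUM, SYM -/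
def SDich5 : Prop :=
  ∀ k : ℕ, 5 ≤ k → ∀ δ : ℝ, 0 < δ → ∃ e : ℝ, 0 < e ∧
    ∀ (V : Type) [Fintype V] [DecidableEq V] (W : V → V → ℝ) (D1 D2 : Finset V), Ker W →
      0 < Fintype.card V → Ext k e W D1 D2 → 1 - δ ≤ ms D2 ∨ 1 - δ ≤ ms D1

/-- DICH4: from FACTS, NUM, SYM, ELIM, TUR -/
def SDich4 : Prop :=
  ∀ δ : ℝ, 0 < δ → ∃ (e : ℝ) (n0 : ℕ), 0 < e ∧
    ∀ (V : Type) [Fintype V] [DecidableEq V] (W : V → V → ℝ) (D1 D2 : Finset V), Ker W →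
      0 < Fintype.card V → n0 ≤ Fintype.card V → Ext 4 e W D1 D2 → 1 - δ ≤ ms D2 ∨ 1 - δ ≤ ms D1

/-- ALM: from NUM, TUR -/
def SAlmost : Prop :=
  ∀ k : ℕ, 4 ≤ k → ∀ δ : ℝ, 0 < δ → ∃ e δ1 : ℝ, 0 < e ∧ 0 < δ1 ∧
    ∀ (V : Type) [Fintype V] [DecidableEq V] (W : V → V → ℝ) (D1 D2 : Finset V), Ker W →
      0 < Fintype.card V → Ext k e W D1 D2 → 1 - δ1 ≤ ms D2 → AlmostT k δ W

/-- STAB: from MANY -/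
def SStab : Prop :=
  ∀ k : ℕ, 4 ≤ k → ∀ δ : ℝ, 0 < δ → ∃ δ1 : ℝ, 0 < δ1 ∧
    ∀ (V : Type) [Fintype V] (W : V → V → ℝ), Ker W → 0 < Fintype.card V →
      AlmostT k δ1 W → Near k δ W

/-- TYP -/
def STyp : Prop :=
  ∀ k : ℕ, 4 ≤ k → ∀ e d : ℝ, 0 < e → e ≤ mu k / 4 → 0 < d → ∃ δ : ℝ, 0 < δ ∧
    ∀ (V : Type) [Fintype V] [DecidableEq V] (W : V → V → ℝ), Ker W → 0 < Fintype.card V →
      Near k δ W → ∃ (Vi : Fin (k - 1) → Finset V) (A1 A2 : Finset V), Typ k e d W Vi A1 A2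

/-- COST: from CORE -/
def SCost : Prop :=
  ∀ k : ℕ, 4 ≤ k → ∀ e : ℝ, 0 < e → e ≤ mu k ^ 2 / 16 → ∃ d0 c : ℝ, 0 < d0 ∧ 0 < c ∧
    ∀ d : ℝ, 0 < d → d ≤ d0 →
    ∀ (V : Type) [Fintype V] [DecidableEq V] (W : V → V → ℝ) (Vi : Fin (k - 1) → Finset V)
      (A1 A2 : Finset V), Ker W → 0 < Fintype.card V → Typ k e d W Vi A1 A2 →
      ∀ T : Fin k → Tr, c * (bl W Vi + ms A2) * (3 / 5 : ℝ) ^ (tot T) ≤ lol (co W) T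

/-- PART -/
def SPart : Prop :=
  ∀ k : ℕ, 2 ≤ k → ∀ (V : Type) [Fintype V] (W : V → V → ℝ), Ker W → ∀ (D : Finset V)
    (T : Fin k → Tr),
    (ms D) ^ (tot T + k) - ((k : ℝ) ^ 2 + (tot T : ℝ)) * ee (co W) D D * (ms D) ^ (tot T + k - 2) ≤
      (∑ x ∈ cl W D k, ∏ i, td W (T i) (x i)) / (Fintype.card V : ℝ) ^ k

/-- UNION: from PART -/
def SUnion : Prop :=
  ∀ k : ℕ, 4 ≤ k → ∀ c : ℝ, 0 < c → ∃ N0 : ℕ, ∀ e d : ℝ, d ≤ mu k ^ 2 / 16 →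
    ∀ (V : Type) [Fintype V] [DecidableEq V] (W : V → V → ℝ) (Vi : Fin (k - 1) → Finset V)
      (A1 A2 : Finset V), Ker W → 0 < Fintype.card V → Typ k e d W Vi A1 A2 →
      ∀ T : Fin k → Tr, N0 ≤ tot T →
        c * (bl W Vi + ms A1 + ms A2) * (3 / 5 : ℝ) ^ (tot T) ≤ lol (co W) T →
        mu k ^ (tot T + (k - 1)) ≤ lol W T + lol (co W) T

/-- facts on the reduced red kernel -/
structure QF (k : ℕ) (g : ℝ) {V : Type} [Fintype V] [DecidableEq V] (W Q : V → V → ℝ)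
    (Vi : Fin (k - 1) → Finset V) (A1 A2 : Finset V) : Prop where
  ker : Ker Q
  le : ∀ x y, Q x y ≤ W x y
  dv : ∀ i, ∀ x ∈ Vi i, |dg Q x - mu k| ≤ g
  da : ∀ x ∈ A1, mu k ≤ dg Q x
  dz : ∀ x ∈ A2, dg Q x = 0
  aa : ∀ x ∈ A1, ∀ y ∈ A1, Q x y = 0
  th : ∀ x, x ∉ A1 → ∑ y ∈ A1, Q x y ≤ 2 / mu k * ms A1 * ∑ y, Q x y
  gv : mu k ^ 2 / 16 * ms A1 ≤ (∑ i, ∑ x ∈ Vi i, (dg Q x - mu k)) / (Fintype.card V : ℝ)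
  gs : mu k ^ 2 / 16 * ms A1 ≤
    (∑ i, ∑ x ∈ Vi i, (dg Q x - mu k) + ∑ x ∈ A1, (dg Q x - mu k)) / (Fintype.card V : ℝ)
  tv : (∑ i, ∑ x ∈ Vi i, |dg Q x - ms (Vi i)|) / (Fintype.card V : ℝ) ≤ bl W Vi + ms A1

/-- QK -/
def SQk : Prop :=
  ∀ k : ℕ, 4 ≤ k → ∀ e d : ℝ, 0 < e → e ≤ mu k ^ 2 / 16 → 0 < d → d ≤ mu k ^ 2 / 16 →
    ∀ (V : Type) [Fintype V] [DecidableEq V] (W : V → V → ℝ) (Vi : Fin (k - 1) → Finset V)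
      (A1 A2 : Finset V), Ker W → 0 < Fintype.card V → Typ k e d W Vi A1 A2 →
      bl W Vi + ms A2 ≤ mu k ^ 2 / 16 * ms A1 →
      QF k (2 * d + e) W (qk W Vi A1) Vi A1 A2

/-- WALK2 -/
def SWalk2 : Prop :=
  ∀ (V : Type) [Fintype V] [DecidableEq V] (Q : V → V → ℝ), Ker Q → ∀ m : ℝ, 0 < m →
    (∀ T : Tr, ∑ x, dg Q x * gt Q m T x = (T.sz : ℝ) * ∑ x, dg Q x * lf Q m x) ∧
    (∀ (A : Finset V) (c1 c2 th : ℝ), 0 ≤ c1 → 0 ≤ c2 → 0 ≤ th → (∀ x ∈ A, ∀ y ∈ A, Q x y = 0) →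
      (∀ x, x ∉ A → lf Q m x ≤ c1) → (∀ x ∈ A, 0 ≤ lf Q m x ∧ lf Q m x ≤ c2) →
      (∀ x, x ∉ A → ∑ y ∈ A, Q x y ≤ th * ∑ y, Q x y) →
      ∀ (T : Tr) (x : V), gt Q m T x ≤ (T.sz : ℝ) * c1 + ((T.sz : ℝ) - (T.rt : ℝ)) * (th * c2) +
        (T.rt : ℝ) * (if x ∈ A then lf Q m x else 0)) ∧
    (∀ c : ℝ, 0 ≤ c → (∀ x, -c ≤ lf Q m x) → ∀ (T : Tr) (x : V), -((T.sz : ℝ) * c) ≤ gt Q m T x)

/-- START: from WALK2 -/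
def SStart : Prop :=
  ∀ k : ℕ, 4 ≤ k → ∀ η : ℝ, 0 < η → ∃ g0 a0 : ℝ, 0 < g0 ∧ 0 < a0 ∧
    ∀ (V : Type) [Fintype V] [DecidableEq V] (W Q : V → V → ℝ) (Vi : Fin (k - 1) → Finset V)
      (A1 A2 : Finset V) (e d g : ℝ), Ker W → 0 < Fintype.card V → Typ k e d W Vi A1 A2 →
      QF k g W Q Vi A1 A2 → g ≤ g0 → ms A1 ≤ a0 → ∀ T : Tr,
        (T.sz : ℝ) * (mu k ^ 2 / 32) * ms A1 ≤
          (∑ i, ∑ x ∈ Vi i, dg Q x * gt Q (mu k) T x) / (Fintype.card V : ℝ) ∧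
        ∀ i, ∀ x ∈ Vi i, |gt Q (mu k) T x| ≤ η * (T.sz : ℝ)

/-- JEN: from WALK -/
def SJen : Prop :=
  ∀ k : ℕ, 4 ≤ k → ∀ (V : Type) [Fintype V] [DecidableEq V] (W Q : V → V → ℝ), Ker W → Ker Q →
    0 < Fintype.card V → (∀ x y, Q x y ≤ W x y) → ∀ Vi : Fin (k - 1) → Finset V,
    (∀ i j, i ≠ j → Disjoint (Vi i) (Vi j)) → (∀ i, 0 < (cl W (Vi i) k).card) →
    (∀ i, ∀ x ∈ Vi i, 0 < dg Q x) → ∀ m : ℝ, 0 < m → ∀ (T : Fin k → Tr) (w : Fin (k - 1) → ℝ),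
    (∀ i, 0 < w i) → ∑ i, w i = 1 →
    (tot T : ℝ) * Real.log m +
      ∑ i, w i * (Real.log (((cl W (Vi i) k).card : ℝ) / ((Fintype.card V : ℝ) ^ k * w i)) +
        (∑ x ∈ cl W (Vi i) k, ∑ j, gt Q m (T j) (x j)) / ((cl W (Vi i) k).card : ℝ)) ≤
      Real.log (lol W T)

/-- weights of the parts -/
noncomputable def ww {k : ℕ} {V : Type} [Fintype V] (Vi : Fin (k - 1) → Finset V)
    (i : Fin (k - 1)) : ℝ := (ms (Vi i)) ^ 2 / ∑ j, (ms (Vi j)) ^ 2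

/-- MARG -/
def SMarg : Prop :=
  ∀ k : ℕ, 4 ≤ k → ∃ C b0 : ℝ, 0 < C ∧ 0 < b0 ∧
    ∀ (V : Type) [Fintype V] [DecidableEq V] (W Q : V → V → ℝ) (Vi : Fin (k - 1) → Finset V)
      (A1 A2 : Finset V) (e d g : ℝ), Ker W → 0 < Fintype.card V → e ≤ mu k ^ 2 / 16 →
      d ≤ mu k ^ 2 / 16 → g ≤ mu k / 4 → Typ k e d W Vi A1 A2 → QF k g W Q Vi A1 A2 →
      bl W Vi ≤ b0 → (∀ i, 0 < (cl W (Vi i) k).card) ∧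
      ∀ (j : Fin k) (f : V → ℝ) (M : ℝ), (∀ i, ∀ x ∈ Vi i, |f x| ≤ M) →
        |∑ i, ww Vi i * ((∑ x ∈ cl W (Vi i) k, f (x j)) / ((cl W (Vi i) k).card : ℝ)) -
          (∑ i, ∑ x ∈ Vi i, dg Q x * f x) / (∑ i, ∑ x ∈ Vi i, dg Q x)| ≤
        C * (bl W Vi + ms A1) * M

/-- ENT -/
def SEnt : Prop :=
  ∀ k : ℕ, 4 ≤ k → ∃ C b0 : ℝ, 0 < C ∧ 0 < b0 ∧
    ∀ (V : Type) [Fintype V] [DecidableEq V] (W : V → V → ℝ) (Vi : Fin (k - 1) → Finset V)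
      (A1 A2 : Finset V) (e d : ℝ), Ker W → 0 < Fintype.card V →
      d ≤ mu k ^ 2 / 16 → Typ k e d W Vi A1 A2 → bl W Vi ≤ b0 →
      ((k : ℝ) - 1) * Real.log (mu k) - C * (bl W Vi + ms A1 + ms A2) ≤
        ∑ i, ww Vi i *
          Real.log (((cl W (Vi i) k).card : ℝ) / ((Fintype.card V : ℝ) ^ k * ww Vi i))

/-- GAIN: from QK, START, JEN, MARG, ENT -/
def SGain : Prop :=
  ∀ k : ℕ, 4 ≤ k → ∃ (e d0 c3 : ℝ) (N0 : ℕ), 0 < e ∧ e ≤ mu k ^ 2 / 16 ∧ 0 < d0 ∧ 0 < c3 ∧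
    ∀ d : ℝ, 0 < d → d ≤ d0 →
    ∀ (V : Type) [Fintype V] [DecidableEq V] (W : V → V → ℝ) (Vi : Fin (k - 1) → Finset V)
      (A1 A2 : Finset V), Ker W → 0 < Fintype.card V → Typ k e d W Vi A1 A2 →
      bl W Vi + ms A2 ≤ c3 * ms A1 → 0 < ms A1 → ∀ T : Fin k → Tr, N0 ≤ tot T →
      mu k ^ (tot T + (k - 1)) ≤ lol W T

/-- LOC: from TYP, COST, UNION, GAIN -/
def SLocal : Prop :=
  ∀ k : ℕ, 4 ≤ k → ∃ (δ : ℝ) (N0 : ℕ), 0 < δ ∧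
    ∀ (V : Type) [Fintype V] (W : V → V → ℝ), Ker W → 0 < Fintype.card V → Near k δ W →
      ∀ T : Fin k → Tr, N0 ≤ tot T → mu k ^ (tot T + (k - 1)) ≤ lol W T + lol (co W) T

/-- MAIN: from SETS, SYM, DICH5, DICH4, ALM, STAB, LOC -/
def SMain : Prop :=
  ∀ k : ℕ, 4 ≤ k → ∃ N0 n0 : ℕ, ∀ (V : Type) [Fintype V] (W : V → V → ℝ), Ker W →
    n0 ≤ Fintype.card V → ∀ T : Fin k → Tr, N0 ≤ tot T →
    mu k ^ (tot T + (k - 1)) ≤ lol W T + lol (co W) T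

open Classical in
/-- HOM -/
def SHom : Prop :=
  ∀ k : ℕ, 4 ≤ k → ∀ (t : ℕ) (H : SimpleGraph (Fin t)),
    (H.Connected ∧ ∃ S : Finset (Fin t), S.card = k ∧ (∀ u ∈ S, ∀ v ∈ S, u ≠ v → H.Adj u v) ∧
      H.edgeSet.ncard = k.choose 2 + (t - k)) →
    ∃ T : Fin k → Tr, tot T + k = t ∧ ∀ (V : Type) [Fintype V] (W : V → V → ℝ), Ker W →
      (((Finset.univ : Finset (Fin t → V)).filter
        (fun f => ∀ u v, H.Adj u v → W (f u) (f v) = 1)).card : ℝ) =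
        lol W T * (Fintype.card V : ℝ) ^ t

open Classical in
/-- LOW: from MAIN, HOM -/
def SLow : Prop :=
  ∀ k : ℕ, 4 ≤ k → ∃ T : ℕ, ∀ t : ℕ, T ≤ t → ∀ H : SimpleGraph (Fin t),
    (H.Connected ∧ ∃ S : Finset (Fin t), S.card = k ∧ (∀ u ∈ S, ∀ v ∈ S, u ≠ v → H.Adj u v) ∧
      H.edgeSet.ncard = k.choose 2 + (t - k)) →
    ∀ ε : ℝ, 0 < ε → ∃ N : ℕ, ∀ n : ℕ, N ≤ n → ∀ G : SimpleGraph (Fin n),
      ((k : ℝ) - 1) ^ ((1 : ℤ) - (t : ℤ)) - ε ≤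
        (((Finset.univ : Finset (Fin t ↪ Fin n)).filter
          (fun f => (∀ u v, H.Adj u v → G.Adj (f u) (f v)) ∨
            (∀ u v, H.Adj u v → Gᶜ.Adj (f u) (f v)))).card : ℝ) / ((n.descFactorial t : ℕ) : ℝ)

open Classical in
/-- UP -/
def SUp : Prop :=
  ∀ k : ℕ, 4 ≤ k → ∀ t : ℕ, ∀ H : SimpleGraph (Fin t),
    (H.Connected ∧ ∃ S : Finset (Fin t), S.card = k ∧ (∀ u ∈ S, ∀ v ∈ S, u ≠ v → H.Adj u v) ∧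
      H.edgeSet.ncard = k.choose 2 + (t - k)) →
    ∀ ε : ℝ, 0 < ε → ∃ N : ℕ, ∀ n : ℕ, N ≤ n → ∃ G : SimpleGraph (Fin n),
      (((Finset.univ : Finset (Fin t ↪ Fin n)).filter
        (fun f => (∀ u v, H.Adj u v → G.Adj (f u) (f v)) ∨
          (∀ u v, H.Adj u v → Gᶜ.Adj (f u) (f v)))).card : ℝ) / ((n.descFactorial t : ℕ) : ℝ) ≤
        ((k : ℝ) - 1) ^ ((1 : ℤ) - (t : ℤ)) + ε

end Pool.Agent.W297.LP
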