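import Pool.Agent.W297.LP.Main
import Pool.Agent.W790.LP.Moon
import Pool.Agent.W440.LP.DENS
import Pool.Agent.W174.LP.Tur
import Pool.Agent.W688.LP.ELIM
import Pool.Agent.W371.LL.Amgm
import Pool.Agent.W315.LP.Glue
import Pool.Agent.W371.LL.Walk
import Pool.Agent.W371.LL.Cert
import Pool.Agent.W371.LL.Num
import Pool.Agent.W397.LP.Sets
import Pool.Agent.W371.LL.Sym
import Pool.Agent.W696.LP.Facts
import Pool.Agent.W947.LP.Dich5
import Pool.Agent.W135.LP.Dich4
import Pool.Agent.W50.LP.Alm
import Pool.Agent.W977.LPT.Typ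
import Pool.Agent.W28.LP.Cost
import Pool.Agent.W604.LP.Part
import Pool.Agent.W15.LP.UNION
import Pool.Agent.W405.LP.QK
import Pool.Agent.W654.LP.Walk2
import Pool.Agent.W597.LP.Start
import Pool.Agent.W54.LP.JEN
import Pool.Agent.W672.LP.Ent
import Pool.Agent.W806.LP.Gain
import Pool.Agent.W202.LP.Loc
import Pool.Agent.W999.LPH.Hom
import Pool.Agent.W672.LP.Low
import Pool.Agent.W465.LP.Up

/-! Project LP: everything together. -/

set_option autoImplicit false

open Finset

namespace Pool.Agent.W297.LP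

theorem low_of (hstab : SManyK → SStab) (hmarg : SMarg) : SLow := by
  have hMoon : SMoon := Pool.Agent.W790.LP.moon
  have hDens : SDens := Pool.Agent.W440.LP.dens hMoon
  have hTur : STur := Pool.Agent.W174.LP.Tur.tur hDens
  have hMany : SManyK := Pool.Agent.W174.LP.Tur.many hDens
  have hRam : SRam := Pool.Agent.W688.LP.ram
  have hElim : SElim := Pool.Agent.W688.LP.elim
  have hAmgm : SAMGM := Pool.Agent.W371.LL.amgm
  have hGlue : SGlue := Pool.Agent.W315.LPGlue.glue
  have hCore : SCore := Pool.Agent.W315.LPGlue.core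
  have hWalk : SWalk := Pool.Agent.W371.LL.walk
  have hCert : SCert := Pool.Agent.W371.LL.cert
  have hNum : SNum := Pool.Agent.W371.LL.num
  have hSets : SSets := Pool.Agent.W397.LP.sets hAmgm hGlue hCore hWalk hCert hRam
  have hSym : SSym := Pool.Agent.W371.LL.sym
  have hFacts : SFacts := Pool.Agent.W696.LPF.facts hTur
  have hDich5 : SDich5 := Pool.Agent.W947.LP.dich5 hFacts hNum hSym
  have hDich4 : SDich4 := Pool.Agent.W135.LP.dich4 hFacts hNum hSym hElim hTur
  have hAlm : SAlmost := Pool.Agent.W50.LP.alm hNum hTur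
  have hStab : SStab := hstab hMany
  have hTyp : STyp := Pool.Agent.W977.LPT.typ
  have hCost : SCost := Pool.Agent.W28.LP.cost hCore
  have hPart : SPart := Pool.Agent.W604.LP.part
  have hUnion : SUnion := Pool.Agent.W15.LP.union hPart
  have hQk : SQk := Pool.Agent.W405.LP.QK.qkf
  have hWalk2 : SWalk2 := Pool.Agent.W654.LPW.walk2
  have hStart : SStart := Pool.Agent.W597.LP.start hWalk2
  have hJen : SJen := Pool.Agent.W54.LP.jen hWalk
  have hEnt : SEnt := Pool.Agent.W672.LP.ent
  have hGain : SGain := Pool.Agent.W806.LP.gain hWalk hQk hStart hJen hmarg hEnt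
  have hLoc : SLocal := Pool.Agent.W202.LP.Loc.loc hTyp hCost hUnion hGain
  have hMain : SMain := main hSets hSym hDich5 hDich4 hAlm hStab hLoc
  exact Pool.Agent.W672.LP.low hMain Pool.Agent.W999.LPH.hom

theorem up_all : SUp := Pool.Agent.W465.LPUp.up

end Pool.Agent.W297.LP
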