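import Mathlib

/-!
Project LP (helper297), problem MP_6505eb_co, frozen statement S09215:
Ramsey multiplicity of generalized lollipops. Definitions.
-/

set_option autoImplicit false

open Finset

namespace Pool.Agent.W297.LP

/-- rooted trees: a point, or `br A B`: the tree `A` with one more branch, a new child of its root
which is the root of `B` -/
inductive Tr : Type where
  | pt : Tr
  | br : Tr → Tr → Tr

/-- number of edges -/
def Tr.sz : Tr → ℕ
  | .pt => 0
  | .br A B => A.sz + B.sz + 1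

/-- number of branches at the root -/
def Tr.rt : Tr → ℕ
  | .pt => 0
  | .br A _ => A.rt + 1

/-- symmetric 0/1 valued kernels on a finite set (loops allowed, `W x x` is arbitrary) -/
structure Ker {V : Type} (W : V → V → ℝ) : Prop where
  symm : ∀ x y, W x y = W y x
  zo : ∀ x y, W x y = 0 ∨ W x y = 1

/-- the other colour -/
def co {V : Type} (W : V → V → ℝ) : V → V → ℝ := fun x y => 1 - W x y

/-- normalised degree -/
noncomputable def dg {V : Type} [Fintype V] (W : V → V → ℝ) (x : V) : ℝ :=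
  (∑ y, W x y) / (Fintype.card V : ℝ)

/-- density of homomorphisms of a rooted tree with the root at `x` -/
noncomputable def td {V : Type} [Fintype V] (W : V → V → ℝ) : Tr → V → ℝ
  | .pt, _ => 1
  | .br A B, x => td W A x * ((∑ y, W x y * td W B y) / (Fintype.card V : ℝ))

open Classical in
/-- ordered `s`-cliques (in the colour `W`) with entries in `D` (repetitions allowed at loops) -/
noncomputable def cl {V : Type} [Fintype V] (W : V → V → ℝ) (D : Finset V) (s : ℕ) :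
    Finset (Fin s → V) :=
  univ.filter (fun x => (∀ i, x i ∈ D) ∧ ∀ i j, i ≠ j → W (x i) (x j) = 1)

/-- density of homomorphisms of the clique on `k` points with the trees `T i` attached -/
noncomputable def lol {V : Type} [Fintype V] {k : ℕ} (W : V → V → ℝ) (T : Fin k → Tr) : ℝ :=
  (∑ x ∈ cl W univ k, ∏ i, td W (T i) (x i)) / (Fintype.card V : ℝ) ^ k

/-- `1/(k-1)` -/
noncomputable def mu (k : ℕ) : ℝ := 1 / ((k : ℝ) - 1)

/-- total number of tree edges -/
def tot {k : ℕ} (T : Fin k → Tr) : ℕ := ∑ i, (T i).sz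

/-- normalised size -/
noncomputable def ms {V : Type} [Fintype V] (D : Finset V) : ℝ :=
  (D.card : ℝ) / (Fintype.card V : ℝ)

/-- normalised number of ordered pairs -/
noncomputable def ee {V : Type} [Fintype V] (W : V → V → ℝ) (P Q : Finset V) : ℝ :=
  (∑ x ∈ P, ∑ y ∈ Q, W x y) / (Fintype.card V : ℝ) ^ 2

/-- the mean over the neighbours -/
noncomputable def pp {V : Type} [Fintype V] (W : V → V → ℝ) (g : V → ℝ) (x : V) : ℝ :=
  (∑ y, W x y * g y) / (∑ y, W x y)

/-- logarithm of the degree relative to `m` -/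
noncomputable def lf {V : Type} [Fintype V] (W : V → V → ℝ) (m : ℝ) (x : V) : ℝ :=
  Real.log (dg W x / m)

/-- the walk functional of a rooted tree: sum over the edges of the expected value of `lf` at the
parent, when the tree is mapped by random walks started at `x` -/
noncomputable def gt {V : Type} [Fintype V] (W : V → V → ℝ) (m : ℝ) : Tr → V → ℝ
  | .pt, _ => 0
  | .br A B, x => gt W m A x + lf W m x + pp W (gt W m B) x

/-- pointwise inequality behind a two-colour certificate -/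
def Cert2 (m l1 l2 : ℝ) (Ph : ℝ → ℝ) : Prop :=
  ∀ d a b : ℝ, 0 ≤ d → d ≤ 1 → 0 ≤ a → a ≤ d → 0 ≤ b → b ≤ 1 - d →
    l1 * a + l2 * b + Ph d ≤ a * Real.log (d / m) + b * Real.log ((1 - d) / m)

/-- pointwise inequality behind a one-colour certificate -/
def Cert1 (m l : ℝ) (Ph : ℝ → ℝ) : Prop :=
  ∀ d a : ℝ, 0 ≤ d → d ≤ 1 → 0 ≤ a → a ≤ d → l * a + Ph d ≤ a * Real.log (d / m)

/-- what is extracted from a colouring with few lollipops in both colours: `D1` are the vertices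
with large red tree count, `D2` those with large blue tree count -/
structure Ext (k : ℕ) (e : ℝ) {V : Type} [Fintype V] [DecidableEq V] (W : V → V → ℝ)
    (D1 D2 : Finset V) : Prop where
  c1 : ((cl W D1 k).card : ℝ) ≤ e * (Fintype.card V : ℝ) ^ k
  c2 : ((cl (co W) D2 k).card : ℝ) ≤ e * (Fintype.card V : ℝ) ^ k
  cap : ms (D1 ∩ D2) ≤ e
  core1 : ∀ S : Finset V, (∀ x ∈ S, (1 + e) * mu k * (Fintype.card V : ℝ) ≤ ∑ y ∈ S, W x y) → S ⊆ D1
  core2 : ∀ S : Finset V, (∀ x ∈ S, (1 + e) * mu k * (Fintype.card V : ℝ) ≤ ∑ y ∈ S, co W x y) →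
    S ⊆ D2
  two : ∀ (l1 l2 : ℝ) (Ph : ℝ → ℝ), Cert2 (mu k) l1 l2 Ph →
    l1 * (∑ x ∈ D1ᶜ, dg W x) + l2 * (∑ x ∈ D2ᶜ, dg (co W) x) + ∑ x, Ph (dg W x)
      ≤ e * (Fintype.card V : ℝ)
  one1 : ∀ (l : ℝ) (Ph : ℝ → ℝ), Cert1 (mu k) l Ph →
    l * (∑ x ∈ D1ᶜ, dg W x) + ∑ x, Ph (dg W x) ≤ e * (Fintype.card V : ℝ)
  one2 : ∀ (l : ℝ) (Ph : ℝ → ℝ), Cert1 (mu k) l Ph →
    l * (∑ x ∈ D2ᶜ, dg (co W) x) + ∑ x, Ph (dg (co W) x) ≤ e * (Fintype.card V : ℝ)

/-- first form of being close to the Turan colouring (`W` = colour inside the parts) -/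
def AlmostT (k : ℕ) (d : ℝ) {V : Type} [Fintype V] (W : V → V → ℝ) : Prop :=
  ∃ D : Finset V, 1 - d ≤ ms D ∧ ((cl (co W) D k).card : ℝ) ≤ d * (Fintype.card V : ℝ) ^ k ∧
    |ee W univ univ - mu k| ≤ d ∧ ∑ x, (dg W x - mu k) ^ 2 ≤ d * (Fintype.card V : ℝ)

open Classical in
/-- second form: a partition into `k-1` nearly equal parts with few wrong pairs -/
def Near (k : ℕ) (d : ℝ) {V : Type} [Fintype V] (W : V → V → ℝ) : Prop :=
  ∃ P : V → Fin (k - 1), (∀ i, |ms (univ.filter (fun x => P x = i)) - mu k| ≤ d) ∧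
    ∑ x, ∑ y, (if P x = P y then 1 - W x y else W x y) ≤ d * (Fintype.card V : ℝ) ^ 2

/-- normalised number of ordered pairs of the other colour inside the parts -/
noncomputable def bl {k : ℕ} {V : Type} [Fintype V] (W : V → V → ℝ) (Vi : Fin (k - 1) → Finset V) :
    ℝ := ∑ i, ee (co W) (Vi i) (Vi i)

/-- typical parts `Vi`, the vertices `A1` of large red degree, the other atypical vertices `A2`;
`e` bounds the inner blue degrees of typical vertices, `d` is much smaller than `e` -/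
structure Typ (k : ℕ) (e d : ℝ) {V : Type} [Fintype V] [DecidableEq V] (W : V → V → ℝ)
    (Vi : Fin (k - 1) → Finset V) (A1 A2 : Finset V) : Prop where
  disj : ∀ i j, i ≠ j → Disjoint (Vi i) (Vi j)
  d1 : ∀ i, Disjoint (Vi i) A1
  d2 : ∀ i, Disjoint (Vi i) A2
  d12 : Disjoint A1 A2
  cov : ∀ x, x ∈ A1 ∨ x ∈ A2 ∨ ∃ i, x ∈ Vi i
  size : ∀ i, |ms (Vi i) - mu k| ≤ d
  small : ms A1 + ms A2 ≤ d
  big : ∀ x ∈ A1, mu k + mu k ^ 2 / 4 ≤ dg W x
  low : ∀ x, x ∉ A1 → dg W x ≤ mu k + mu k ^ 2 / 4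
  typ : ∀ i, ∀ x ∈ Vi i, ∑ y ∈ Vi i, co W x y ≤ e * (Fintype.card V : ℝ)
  atyp : ∀ x ∈ A2, ∀ i, e / 4 * (Fintype.card V : ℝ) ≤ ∑ y ∈ Vi i, co W x y
  cross : ∀ i j, i ≠ j → ee W (Vi i) (Vi j) ≤ d

open Classical in
/-- the reduced red kernel: red pairs inside the parts `Vi i` and between the parts and `A1` -/
noncomputable def qk {k : ℕ} {V : Type} [DecidableEq V] (W : V → V → ℝ)
    (Vi : Fin (k - 1) → Finset V) (A1 : Finset V) : V → V → ℝ := fun x y =>
  if (∃ i, x ∈ Vi i ∧ y ∈ Vi i) ∨ (x ∈ A1 ∧ ∃ i, y ∈ Vi i) ∨ (y ∈ A1 ∧ ∃ i, x ∈ Vi i) then W x y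
  else 0

end Pool.Agent.W297.LP
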