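import Pool.Agent.W297.LP.Stm

/-! Project LP: assembly of the main analytic theorem. -/

set_option autoImplicit false

open Finset

namespace Pool.Agent.W297.LP

theorem co_co {V : Type} (W : V → V → ℝ) : co (co W) = W := by
  funext x y; simp [co]

theorem ker_co {V : Type} {W : V → V → ℝ} (h : Ker W) : Ker (co W) := by
  refine ⟨fun x y => by simp [co, h.symm x y], fun x y => ?_⟩
  rcases h.zo x y with h0 | h0 <;> simp [co, h0]

theorem Ker.nonneg {V : Type} {W : V → V → ℝ} (h : Ker W) (x y : V) : 0 ≤ W x y := by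
  rcases h.zo x y with h0 | h0 <;> simp [h0]

theorem td_nonneg {V : Type} [Fintype V] {W : V → V → ℝ} (h : Ker W) (T : Tr) (x : V) :
    0 ≤ td W T x := by
  induction T generalizing x with
  | pt => simp [td]
  | br A B ihA ihB =>
    simp only [td]
    exact mul_nonneg (ihA x) (div_nonneg (sum_nonneg fun y _ => mul_nonneg (h.nonneg x y) (ihB y))
      (Nat.cast_nonneg _))

theorem lol_nonneg {V : Type} [Fintype V] {W : V → V → ℝ} (h : Ker W) {k : ℕ} (T : Fin k → Tr) :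
    0 ≤ lol W T :=
  div_nonneg (sum_nonneg fun x _ => prod_nonneg fun i _ => td_nonneg h _ _) (by positivity)

theorem main (hsets : SSets) (hsym : SSym) (h5 : SDich5) (h4 : SDich4) (halm : SAlmost)
    (hst : SStab) (hloc : SLocal) : SMain := by
  intro k hk
  obtain ⟨δ, N1, hδ, hL⟩ := hloc k hk
  obtain ⟨δ1, hδ1, hS⟩ := hst k hk δ hδ
  obtain ⟨e1, δ2, he1, hδ2, hA⟩ := halm k hk δ1 hδ1
  have hD : ∃ (e : ℝ) (n0 : ℕ), 0 < e ∧
      ∀ (V : Type) [Fintype V] [DecidableEq V] (W : V → V → ℝ) (D1 D2 : Finset V), Ker W →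
        0 < Fintype.card V → n0 ≤ Fintype.card V → Ext k e W D1 D2 →
        1 - δ2 ≤ ms D2 ∨ 1 - δ2 ≤ ms D1 := by
    rcases Nat.lt_or_ge k 5 with hk5 | hk5
    · obtain rfl : k = 4 := by omega
      exact h4 δ2 hδ2
    · obtain ⟨e, he, h⟩ := h5 k hk5 δ2 hδ2
      exact ⟨e, 0, he, fun V _ _ W D1 D2 hW hc _ hE => h V W D1 D2 hW hc hE⟩
  obtain ⟨e2, n0, he2, hD⟩ := hD
  obtain ⟨N2, hN2⟩ := hsets k hk (min e1 e2) (lt_min he1 he2)
  refine ⟨max N1 N2, max n0 1, fun V _ W hW hn T hT => ?_⟩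
  classical
  have hn0 : n0 ≤ Fintype.card V := le_trans (le_max_left _ _) hn
  have hn1 : 0 < Fintype.card V := lt_of_lt_of_le Nat.one_pos (le_trans (le_max_right _ _) hn)
  by_contra hcon
  push Not at hcon
  have hl1 := lol_nonneg hW T
  have hl2 := lol_nonneg (ker_co hW) T
  obtain ⟨D1, D2, hE⟩ := hN2 V W hW T (le_trans (le_max_right _ _) hT) (by linarith) (by linarith)
  have hE1 : Ext k e1 W D1 D2 := hsym.2 k _ _ V W D1 D2 hk (min_le_left _ _) hE
  have hE2 : Ext k e2 W D1 D2 := hsym.2 k _ _ V W D1 D2 hk (min_le_right _ _) hE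
  rcases hD V W D1 D2 hW hn1 hn0 hE2 with hc | hc
  · have := hL V W hW hn1 (hS V W hW hn1 (hA V W D1 D2 hW hn1 hE1 hc)) T
      (le_trans (le_max_left _ _) hT)
    linarith
  · have hE1' := hsym.1 k e1 V W D1 D2 hW hE1
    have := hL V (co W) (ker_co hW) hn1 (hS V (co W) (ker_co hW) hn1
      (hA V (co W) D2 D1 (ker_co hW) hn1 hE1' hc)) T (le_trans (le_max_left _ _) hT)
    rw [co_co] at this
    linarith

end Pool.Agent.W297.LP
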